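import Pool.Agent.Work.MP_5c5849_an.Main

open Finset

namespace Pool.Agent.Results.MP_5c5849_an.CotypeTwo

/-- Symmetric Gaussian polytopes have cotype 2 with an absolute constant, for all `N ≥ n ≥ 2`,
with probability at least `1 - 3 exp (-n/10)`. -/
theorem result :
    ∃ C : ℝ, 1 ≤ C ∧ ∀ n N : ℕ, 2 ≤ n → n ≤ N →
      ENNReal.ofReal (1 - 3 * Real.exp (-((n : ℝ) / 10))) ≤
        (MeasureTheory.Measure.pi fun _ : Fin N =>
          MeasureTheory.Measure.pi fun _ : Fin n => ProbabilityTheory.gaussianReal 0 1)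
        {g : Fin N → Fin n → ℝ | ∀ (k : ℕ) (y : Fin k → Fin n → ℝ),
          (∑ i, gauge (convexHull ℝ (Set.range g ∪ Set.range (-g))) (y i) ^ 2) / C ^ 2 ≤
            (∑ s : Fin k → Fin 2, gauge (convexHull ℝ (Set.range g ∪ Set.range (-g)))
              (∑ i, ((-1 : ℝ) ^ (s i : ℕ)) • y i) ^ 2) / 2 ^ k} := by
  refine ⟨(65 + 4) * (1 + 6 * 10 ^ 13), by norm_num, fun n N hn hN => ?_⟩
  refine (Pool.Agent.Work.MP_5c5849_an.prob_cot hn hN).trans
    (MeasureTheory.measure_mono fun g hg k y => ?_)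
  have h := pow_le_pow_left₀ (Real.sqrt_nonneg _) (hg k y) 2
  rw [mul_pow, Real.sq_sqrt (sum_nonneg fun i _ => sq_nonneg _),
    Real.sq_sqrt (Pool.Agent.Work.MP_5c5849_an.av_nonneg fun s => sq_nonneg _)] at h
  rw [div_le_iff₀ (by positivity), mul_comm]
  exact h

end Pool.Agent.Results.MP_5c5849_an.CotypeTwo
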